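import Pool.Agent.Helper26.Lr.Defs
import Pool.Agent.Helper26.Ip.Tools
import Pool.Agent.Helper83.Ip.ETA

/-!
# Conditional moments: package LR2
-/

set_option autoImplicit false
set_option linter.unusedSectionVars false
open MeasureTheory Filter Topology ProbabilityTheory
open scoped ContDiff ENNReal InnerProductSpace

namespace Pool.Agent.Helper83.Lr

open Pool.Agent.N661.BR (MW J0 IsStationary shift meas_eval meas_shift IsGaussianLaw lin meas_lin)
open Pool.Agent.Helper37.BC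
open Pool.Agent.Helper26.Ip
open Pool.Agent.Helper83.Ip
open Pool.Agent.Helper26.Lr
open Complex (I)

noncomputable section

section general

variable {Ω : Type*} [MeasurableSpace Ω] {μ : Measure Ω}

lemma inner_eq (k b : Lp ℝ 2 μ) : (⟪k, b⟫_ℝ : ℝ) = ∫ f, k f * b f ∂μ := by
  rw [real_inner_comm, L2.inner_def]
  refine integral_congr_ae (Eventually.of_forall fun f => ?_)
  simp

lemma cs2 (k : Lp ℝ 2 μ) (g : Lp ℂ 2 μ) (u : Ω → ℂ) (hu : ∀ f, ‖u f‖ ≤ 1) :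
    ‖∫ f, (k f : ℂ) * (u f * g f) ∂μ‖ ≤ ‖k‖ * ‖g‖ := by
  have h1 : ‖∫ f, (k f : ℂ) * (u f * g f) ∂μ‖ₑ ≤ eLpNorm k 2 μ * eLpNorm g 2 μ := by
    refine (enorm_integral_le_lintegral_enorm _).trans ?_
    have h2 := eLpNorm_smul_le_mul_eLpNorm (p := 2) (q := 2) (r := 1)
      (Lp.aestronglyMeasurable g) (Lp.aestronglyMeasurable k)
    rw [eLpNorm_one_eq_lintegral_enorm] at h2
    refine le_trans ?_ h2
    refine lintegral_mono fun f => ?_
    rw [Pi.smul_apply', Complex.real_smul, enorm_mul, enorm_mul, enorm_mul]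
    have h3 : ‖u f‖ₑ ≤ 1 := by
      rw [← ofReal_norm]
      exact (ENNReal.ofReal_le_ofReal (hu f)).trans (by simp)
    calc ‖(k f : ℂ)‖ₑ * (‖u f‖ₑ * ‖g f‖ₑ) ≤ ‖(k f : ℂ)‖ₑ * (1 * ‖g f‖ₑ) := by gcongr
      _ = _ := by rw [one_mul]
  have h3 : (eLpNorm k 2 μ * eLpNorm g 2 μ) ≠ ⊤ :=
    ENNReal.mul_ne_top (Lp.eLpNorm_ne_top k) (Lp.eLpNorm_ne_top g)
  have h4 := ENNReal.toReal_mono h3 h1
  rw [ENNReal.toReal_mul, toReal_enorm] at h4
  rw [Lp.norm_def, Lp.norm_def]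
  exact h4

/-- the unimodular function -/
def ee (c : Lp ℝ 2 μ) (f : Ω) : ℂ := Complex.exp (I * ((c f : ℝ) : ℂ))

lemma ee_norm (c : Lp ℝ 2 μ) (f : Ω) : ‖ee c f‖ ≤ 1 := by
  unfold ee
  rw [mul_comm, Complex.norm_exp_ofReal_mul_I]

lemma ee_meas (c : Lp ℝ 2 μ) : AEStronglyMeasurable (ee c) μ :=
  (Complex.continuous_exp.comp_aestronglyMeasurable
    ((Complex.continuous_ofReal.comp_aestronglyMeasurable
      (Lp.aestronglyMeasurable c)).const_mul I))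

lemma ae_exp (c v : Lp ℝ 2 μ) (s : ℝ) :
    (fun f => ee (c + s • v) f) =ᵐ[μ]
      fun f => ee c f * Phi (s • v) f + ee c f + I * s * ((v f : ℂ) * ee c f) := by
  filter_upwards [Lp.coeFn_add c (s • v), Lp.coeFn_smul s v, Phi_coe (s • v)] with f h1 h2 h3
  rw [h3]
  unfold ee
  rw [h1, Pi.add_apply, h2, Pi.smul_apply, smul_eq_mul]
  unfold phi
  push_cast
  rw [mul_add, Complex.exp_add]
  ring

variable [IsProbabilityMeasure μ]

lemma l1 (g : Lp ℂ 2 μ) (u : Ω → ℂ) (hu : ∀ f, ‖u f‖ ≤ 1) : ‖∫ f, u f * g f ∂μ‖ ≤ ‖g‖ := by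
  have hi : Integrable (fun f => g f) μ := (Lp.memLp g).integrable (by norm_num)
  have h1 : ‖∫ f, u f * g f ∂μ‖ ≤ ∫ f, ‖g f‖ ∂μ := by
    refine norm_integral_le_of_norm_le hi.norm (Eventually.of_forall fun f => ?_)
    rw [norm_mul]
    exact mul_le_of_le_one_left (norm_nonneg _) (hu f)
  refine h1.trans ?_
  rw [Lp.norm_def, integral_norm_eq_lintegral_enorm (Lp.aestronglyMeasurable g),
    ← eLpNorm_one_eq_lintegral_enorm]
  refine ENNReal.toReal_mono (Lp.eLpNorm_ne_top g) ?_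
  exact eLpNorm_le_eLpNorm_of_exponent_le (by norm_num) (Lp.aestronglyMeasurable g)

lemma int_ee_mul (c : Lp ℝ 2 μ) {g : Ω → ℂ} (hg : Integrable g μ) :
    Integrable (fun f => ee c f * g f) μ :=
  hg.bdd_mul (ee_meas c) (Eventually.of_forall (ee_norm c))

/-- LR2a -/
theorem step {c v k : Lp ℝ 2 μ} (s : ℝ)
    (h1 : ∫ f, (v f : ℂ) * Complex.exp (I * ((c f : ℝ) : ℂ)) ∂μ = 0)
    (h2 : ∫ f, ((k f * v f : ℝ) : ℂ) * Complex.exp (I * ((c f : ℝ) : ℂ)) ∂μ =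
      ((⟪k, v⟫_ℝ : ℝ) : ℂ) * ch c) :
    ‖ex (c + s • v) k - ex c k‖ ≤ ‖k‖ * (1 + |s| * ‖v‖ + ‖c‖) * ‖Phi (s • v)‖ := by
  have hch : ∀ b : Lp ℝ 2 μ, ch b = ∫ f, ee b f ∂μ := fun b => rfl
  have hiP : Integrable (fun f => Phi (s • v) f) μ := (Lp.memLp _).integrable (by norm_num)
  have hie : Integrable (fun f => ee c f) μ :=
    Integrable.of_bound (ee_meas c) 1 (Eventually.of_forall (ee_norm c))
  have hiv : Integrable (fun f => (v f : ℂ)) μ := (int_one v).ofReal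
  have hive : Integrable (fun f => (v f : ℂ) * ee c f) μ := by
    refine (int_ee_mul c hiv).congr (Eventually.of_forall fun f => mul_comm _ _)
  set R : ℂ := ∫ f, ee c f * Phi (s • v) f ∂μ with hR
  set Aa : ℂ := ∫ f, (k f : ℂ) * (ee c f * Phi (s • v) f) ∂μ with hA
  have e1 : ch (c + s • v) = R + ch c := by
    rw [hch, integral_congr_ae (ae_exp c v s)]
    have i1 : Integrable (fun f => ee c f * Phi (s • v) f) μ := int_ee_mul c hiP
    have i2 : Integrable (fun f => ee c f * Phi (s • v) f + ee c f) μ := i1.add hie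
    have i3 : Integrable (fun f => I * s * ((v f : ℂ) * ee c f)) μ := hive.const_mul _
    rw [integral_add i2 i3, integral_add i1 hie, integral_const_mul]
    have : ∫ f, (v f : ℂ) * ee c f ∂μ = 0 := h1
    rw [this, mul_zero, add_zero, hch]
  have i1 : Integrable (fun f => (k f : ℂ) * (ee c f * Phi (s • v) f)) μ := by
    have := int_ee_mul c (int_mul k (Phi (s • v)))
    refine this.congr (Eventually.of_forall fun f => ?_)
    show ee c f * ((k f : ℂ) * Phi (s • v) f) = _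
    ring
  have i2 : Integrable (fun f => (k f : ℂ) * ee c f) μ := by
    have hk : Integrable (fun f => (k f : ℂ)) μ := (int_one k).ofReal
    refine (int_ee_mul c hk).congr (Eventually.of_forall fun f => mul_comm _ _)
  have i3 : Integrable (fun f => ((k f * v f : ℝ) : ℂ) * ee c f) μ := by
    have hk : Integrable (fun f => ((k f * v f : ℝ) : ℂ)) μ := (int_mulR k v).ofReal
    refine (int_ee_mul c hk).congr (Eventually.of_forall fun f => mul_comm _ _)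
  have e2 : ∫ f, (k f : ℂ) * ee (c + s • v) f ∂μ =
      Aa + (∫ f, (k f : ℂ) * ee c f ∂μ) + I * s * (((⟪k, v⟫_ℝ : ℝ) : ℂ) * ch c) := by
    have e3 : (fun f => (k f : ℂ) * ee (c + s • v) f) =ᵐ[μ]
        fun f => (k f : ℂ) * (ee c f * Phi (s • v) f) + (k f : ℂ) * ee c f +
          I * s * (((k f * v f : ℝ) : ℂ) * ee c f) := by
      filter_upwards [ae_exp c v s] with f hf
      rw [hf]
      push_cast
      ring
    have i4 : Integrable (fun f => (k f : ℂ) * (ee c f * Phi (s • v) f) + (k f : ℂ) * ee c f) μ :=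
      i1.add i2
    rw [integral_congr_ae e3, integral_add i4 (i3.const_mul _), integral_add i1 i2,
      integral_const_mul, ← h2]
    rfl
  have e4 : ex (c + s • v) k - ex c k = Aa - I * ((⟪k, c⟫_ℝ + s * ⟪k, v⟫_ℝ : ℝ) : ℂ) * R := by
    have e5 : ∫ f, k f * (c + s • v : Lp ℝ 2 μ) f ∂μ = ⟪k, c⟫_ℝ + s * ⟪k, v⟫_ℝ := by
      rw [← inner_eq, inner_add_right, inner_smul_right]
    have e6 : ex (c + s • v) k = (∫ f, (k f : ℂ) * ee (c + s • v) f ∂μ) -
        I * ((∫ f, k f * (c + s • v : Lp ℝ 2 μ) f ∂μ : ℝ) : ℂ) * ch (c + s • v) := rfl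
    have e7 : ex c k = (∫ f, (k f : ℂ) * ee c f ∂μ) - I * ((∫ f, k f * c f ∂μ : ℝ) : ℂ) * ch c :=
      rfl
    rw [e6, e7, e5, e2, e1, ← inner_eq]
    push_cast
    ring
  rw [e4]
  have n1 : ‖Aa‖ ≤ ‖k‖ * ‖Phi (s • v)‖ := cs2 k _ _ (ee_norm c)
  have n2 : ‖R‖ ≤ ‖Phi (s • v)‖ := l1 _ _ (ee_norm c)
  have n3 : |⟪k, c⟫_ℝ + s * ⟪k, v⟫_ℝ| ≤ ‖k‖ * ‖c‖ + |s| * (‖k‖ * ‖v‖) := by
    refine (abs_add_le _ _).trans ?_
    rw [abs_mul]
    exact add_le_add (abs_real_inner_le_norm _ _)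
      (mul_le_mul_of_nonneg_left (abs_real_inner_le_norm _ _) (abs_nonneg _))
  refine (norm_sub_le _ _).trans ?_
  rw [norm_mul, norm_mul, Complex.norm_I, one_mul, Complex.norm_real, Real.norm_eq_abs]
  have n4 := mul_le_mul n3 n2 (norm_nonneg _) (by positivity)
  have : ‖k‖ * (1 + |s| * ‖v‖ + ‖c‖) * ‖Phi (s • v)‖ = ‖k‖ * ‖Phi (s • v)‖ +
      (‖k‖ * ‖c‖ + |s| * (‖k‖ * ‖v‖)) * ‖Phi (s • v)‖ := by ring
  rw [this]
  exact add_le_add n1 n4

lemma phi_neg (u : ℝ) : ‖phi (-u)‖ = ‖phi u‖ := by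
  have : phi (-u) = (starRingEnd ℂ) (phi u) := by
    unfold phi
    simp only [map_sub, map_mul, map_one, Complex.conj_I, Complex.conj_ofReal, ← Complex.exp_conj]
    push_cast
    ring_nf
  rw [this, Complex.norm_conj]

lemma Phi_neg (b : Lp ℝ 2 μ) : ‖Phi (-b)‖ = ‖Phi b‖ := by
  have h : ‖Phi (-b)‖ ^ 2 = ‖Phi b‖ ^ 2 := by
    rw [normsq, normsq]
    refine integral_congr_ae ?_
    filter_upwards [Phi_coe (-b), Phi_coe b, Lp.coeFn_neg b] with f h1 h2 h3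
    rw [h1, h2, h3, Pi.neg_apply, phi_neg]
  exact (pow_left_inj₀ (norm_nonneg _) (norm_nonneg _) (by norm_num)).1 h

lemma Phi_zero : Phi (0 : Lp ℝ 2 μ) = 0 := by
  unfold Phi
  exact phi_lip.compLp_zero phi_zero

/-- LR2b -/
theorem Phi_small (v : Lp ℝ 2 μ) (ε : ℝ) (hε : 0 < ε) : ∃ δ : ℝ, 0 < δ ∧
    ∀ s : ℝ, |s| ≤ δ → ‖Phi (s • v)‖ ≤ ε * |s| := by
  have h := (phi_o v).eventually_lt_const hε
  rw [eventually_nhdsWithin_iff, Metric.eventually_nhds_iff] at h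
  obtain ⟨δ, hδ, h⟩ := h
  refine ⟨δ / 2, by positivity, fun s hs => ?_⟩
  rcases eq_or_ne s 0 with rfl | hs0
  · rw [zero_smul, Phi_zero]
    simp
  have hpos : 0 < |s| := abs_pos.2 hs0
  have h3 : ‖Phi (s • v)‖ = ‖Phi (|s| • v)‖ := by
    rcases le_total 0 s with h0 | h0
    · rw [abs_of_nonneg h0]
    · rw [abs_of_nonpos h0, neg_smul, Phi_neg]
  have h4 := h (y := |s|) (by rw [Real.dist_eq, sub_zero, abs_abs]; linarith) hpos
  rw [h3]
  rw [inv_mul_lt_iff₀ hpos] at h4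
  linarith

end general

variable {μ : Measure MW} [IsProbabilityMeasure μ]

/-- LR2c -/
theorem Phi_shift (hs : IsStationary μ) (x : ℂ) (b : Lp ℝ 2 μ) : ‖Phi (S hs x b)‖ = ‖Phi b‖ := by
  have h1 : (Phi (S hs x b) : MW → ℂ) =ᵐ[μ] (Phi b : MW → ℂ) ∘ shift x := by
    have h2 := (mp_shift hs x).quasiMeasurePreserving.ae_eq_comp (Phi_coe b)
    filter_upwards [Phi_coe (S hs x b), S_coe hs x b, h2] with f h3 h4 h5
    rw [h3, h4, h5]
    rfl
  rw [Lp.norm_def, Lp.norm_def, eLpNorm_congr_ae h1,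
    eLpNorm_comp_measurePreserving (Lp.aestronglyMeasurable _) (mp_shift hs x)]

end

end Pool.Agent.Helper83.Lr
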