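import Pool.Agent.Helper26.Lr.Cond
import Pool.Agent.Helper83.Lr.LR2

/-!
# Conditional moments: package LR3 (telescoping)
-/

set_option autoImplicit false
set_option linter.unusedSectionVars false
open MeasureTheory Filter Topology ProbabilityTheory
open scoped ContDiff ENNReal InnerProductSpace

namespace Pool.Agent.Helper83.Lr

open Pool.Agent.N661.BR (MW J0 IsStationary shift meas_eval meas_shift IsGaussianLaw lin meas_lin)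
open Pool.Agent.Helper37.BC
open Pool.Agent.Helper26.Ip
open Pool.Agent.Helper83.Ip
open Pool.Agent.Helper26.Lr
open Complex (I)

noncomputable section

variable {μ : Measure MW} [IsProbabilityMeasure μ]

lemma norm_V (hs : IsStationary μ) (h2 : Integrable (fun f : MW => f 0 ^ 2) μ) (x : ℂ) :
    ‖V hs h2 x‖ = ‖V hs h2 0‖ := by
  have h := S_V hs h2 x 0
  rw [zero_add] at h
  rw [← h]
  exact (S hs x).norm_map _

lemma ex_V_zero (hs : IsStationary μ) (h2 : Integrable (fun f : MW => f 0 ^ 2) μ)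
    (h1 : Cond1 hs h2) {c : Lp ℝ 2 μ} (hc : c ∈ values μ) {y : ℂ}
    (hx : ⟪c, V hs h2 y⟫_ℝ = 0) : ex c (V hs h2 y) = 0 := by
  unfold ex
  rw [h1 c hc y hx, ← inner_eq, real_inner_comm, hx]
  simp

lemma one_step (hs : IsStationary μ) (h2 : Integrable (fun f : MW => f 0 ^ 2) μ)
    {C : ℝ} (hC : 0 ≤ C) (hlip : ∀ x : ℂ, ∀ c ∈ values μ, ‖S hs x c - c‖ ≤ C * ‖x‖ * ‖c‖)
    (h1 : Cond1 hs h2) (h3 : Cond2 hs h2) (hσ : 0 < ‖V hs h2 0‖) {ε δ : ℝ} (hε : 0 < ε)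
    (hδ : ∀ s : ℝ, |s| ≤ δ → ‖Phi (s • V hs h2 0)‖ ≤ ε * |s|) {M : ℝ} {k : Lp ℝ 2 μ}
    (hk : k ∈ values μ) {c : Lp ℝ 2 μ} (hc : c ∈ values μ) (hM : ‖c‖ ≤ M) {x d : ℂ}
    (hx : ⟪c, V hs h2 x⟫_ℝ = 0) (hd : M * C * ‖d‖ / ‖V hs h2 0‖ ≤ δ) :
    ∃ c' ∈ values μ, ‖c'‖ ≤ M ∧ ⟪c', V hs h2 (x + d)⟫_ℝ = 0 ∧
      ‖ex c k - ex c' k‖ ≤ ‖k‖ * (1 + 2 * M) * (ε * (M * C * ‖d‖ / ‖V hs h2 0‖)) := by
  set σ : ℝ := ‖V hs h2 0‖ with hσdef
  set v : Lp ℝ 2 μ := V hs h2 (x + d) with hv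
  have hvn : ‖v‖ = σ := norm_V hs h2 _
  set s : ℝ := ⟪c, v⟫_ℝ / σ ^ 2 with hsdef
  have hM0 : 0 ≤ M := (norm_nonneg _).trans hM
  have hσ2 : (0 : ℝ) < σ ^ 2 := by positivity
  have hvv : ⟪v, v⟫_ℝ = σ ^ 2 := by rw [real_inner_self_eq_norm_sq, hvn]
  have hcv : ⟪c, v⟫_ℝ = s * σ ^ 2 := by rw [hsdef]; field_simp
  have horth : ⟪c - s • v, v⟫_ℝ = 0 := by
    rw [inner_sub_left, real_inner_smul_left, hvv, hcv, sub_self]
  have hc' : c - s • v ∈ values μ :=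
    Submodule.sub_mem _ hc (Submodule.smul_mem _ _ (V_mem hs h2 _))
  have hnorm : ‖c - s • v‖ ^ 2 + (|s| * σ) ^ 2 = ‖c‖ ^ 2 := by
    have e1 : ‖c - s • v‖ ^ 2 = ‖c‖ ^ 2 - 2 * ⟪c, s • v⟫_ℝ + ‖s • v‖ ^ 2 := norm_sub_sq_real _ _
    rw [e1, real_inner_smul_right, hcv, norm_smul, Real.norm_eq_abs, hvn]
    rw [mul_pow, sq_abs]
    ring
  have hc'M : ‖c - s • v‖ ≤ M := by
    refine le_trans ?_ hM
    refine le_of_sq_le_sq ?_ (norm_nonneg _)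
    nlinarith [sq_nonneg (|s| * σ)]
  have hsσ : |s| * σ ≤ M := by
    refine le_trans ?_ hM
    refine le_of_sq_le_sq ?_ (norm_nonneg _)
    nlinarith [sq_nonneg (‖c - s • v‖)]
  have hdiff : ‖v - V hs h2 x‖ ≤ C * ‖d‖ * σ := by
    have h := hlip d (V hs h2 x) (V_mem hs h2 x)
    rw [S_V hs h2, norm_V hs h2 x] at h
    exact h
  have hs_le : |s| ≤ M * C * ‖d‖ / σ := by
    have e1 : ⟪c, v⟫_ℝ = ⟪c, v - V hs h2 x⟫_ℝ := by rw [inner_sub_right, hx, sub_zero]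
    have e2 : |⟪c, v⟫_ℝ| ≤ M * (C * ‖d‖ * σ) := by
      rw [e1]
      refine (abs_real_inner_le_norm _ _).trans ?_
      exact mul_le_mul hM hdiff (norm_nonneg _) hM0
    rw [hsdef, abs_div, abs_of_pos hσ2, div_le_div_iff₀ hσ2 hσ]
    calc |⟪c, v⟫_ℝ| * σ ≤ M * (C * ‖d‖ * σ) * σ := by gcongr
      _ = M * C * ‖d‖ * σ ^ 2 := by ring
  refine ⟨c - s • v, hc', hc'M, horth, ?_⟩
  have hst := step (c := c - s • v) (v := v) (k := k) s (h1 _ hc' _ horth)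
    (h3 _ hc' _ horth k hk)
  rw [sub_add_cancel, hvn] at hst
  have hPhi : ‖Phi (s • v)‖ = ‖Phi (s • V hs h2 0)‖ := by
    have e1 : s • v = S hs (x + d) (s • V hs h2 0) := by
      rw [map_smul, S_V hs h2, zero_add]
    rw [e1, Phi_shift]
  rw [hPhi] at hst
  refine hst.trans ?_
  have h4 : ‖Phi (s • V hs h2 0)‖ ≤ ε * (M * C * ‖d‖ / σ) :=
    (hδ s (hs_le.trans hd)).trans (mul_le_mul_of_nonneg_left hs_le hε.le)
  refine mul_le_mul ?_ h4 (norm_nonneg _) ?_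
  · refine mul_le_mul_of_nonneg_left ?_ (norm_nonneg _)
    linarith
  · positivity

lemma many_steps (hs : IsStationary μ) (h2 : Integrable (fun f : MW => f 0 ^ 2) μ)
    {C : ℝ} (hC : 0 ≤ C) (hlip : ∀ x : ℂ, ∀ c ∈ values μ, ‖S hs x c - c‖ ≤ C * ‖x‖ * ‖c‖)
    (h1 : Cond1 hs h2) (h3 : Cond2 hs h2) (hσ : 0 < ‖V hs h2 0‖) {ε δ : ℝ} (hε : 0 < ε)
    (hδ : ∀ s : ℝ, |s| ≤ δ → ‖Phi (s • V hs h2 0)‖ ≤ ε * |s|) {M : ℝ} {k : Lp ℝ 2 μ}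
    (hk : k ∈ values μ) {c : Lp ℝ 2 μ} (hc : c ∈ values μ) (hM : ‖c‖ ≤ M) {x d : ℂ}
    (hx : ⟪c, V hs h2 x⟫_ℝ = 0) (hd : M * C * ‖d‖ / ‖V hs h2 0‖ ≤ δ) (n : ℕ) :
    ∃ c' ∈ values μ, ‖c'‖ ≤ M ∧ ⟪c', V hs h2 (x + n * d)⟫_ℝ = 0 ∧
      ‖ex c k - ex c' k‖ ≤ n * (‖k‖ * (1 + 2 * M) * (ε * (M * C * ‖d‖ / ‖V hs h2 0‖))) := by
  induction n with
  | zero =>
    refine ⟨c, hc, hM, ?_, ?_⟩
    · rw [Nat.cast_zero, zero_mul, add_zero]
      exact hx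
    · simp
  | succ n ih =>
    obtain ⟨c', hc', hM', hx', hb⟩ := ih
    obtain ⟨c'', hc'', hM'', hx'', hb'⟩ :=
      one_step hs h2 hC hlip h1 h3 hσ hε hδ hk hc' hM' hx' hd
    refine ⟨c'', hc'', hM'', ?_, ?_⟩
    · rw [show x + ((n + 1 : ℕ) : ℂ) * d = x + n * d + d by push_cast; ring]
      exact hx''
    · have e : ex c k - ex c'' k = (ex c k - ex c' k) + (ex c' k - ex c'' k) := by ring
      rw [e]
      refine (norm_add_le _ _).trans ((add_le_add hb hb').trans (le_of_eq ?_))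
      push_cast
      ring

/-- LR3 -/
theorem path (hs : IsStationary μ) (h2 : Integrable (fun f : MW => f 0 ^ 2) μ)
    (hlip : ∃ C : ℝ, 0 ≤ C ∧ ∀ x : ℂ, ∀ c ∈ values μ, ‖S hs x c - c‖ ≤ C * ‖x‖ * ‖c‖)
    (h1 : Cond1 hs h2) (h3 : Cond2 hs h2) {c : Lp ℝ 2 μ} (hc : c ∈ values μ) {x₀ : ℂ}
    (hx : ⟪c, V hs h2 x₀⟫_ℝ = 0) (y : ℂ) : ex c (V hs h2 y) = 0 := by
  obtain ⟨C, hC, hlip⟩ := hlip
  rcases (norm_nonneg (V hs h2 0)).eq_or_lt with h0 | hσ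
  · refine ex_V_zero hs h2 h1 hc ?_
    have : V hs h2 y = 0 := by
      rw [← norm_eq_zero, norm_V hs h2, ← h0]
    rw [this, inner_zero_right]
  set M : ℝ := ‖c‖ with hMdef
  set K : ℝ := ‖V hs h2 y‖ * (1 + 2 * M) * (M * C * ‖y - x₀‖ / ‖V hs h2 0‖) with hK
  have hK0 : 0 ≤ K := by rw [hK]; positivity
  have main : ∀ ε : ℝ, 0 < ε → ‖ex c (V hs h2 y)‖ ≤ ε * K := by
    intro ε hε
    obtain ⟨δ, hδ0, hδ⟩ := Phi_small (V hs h2 0) ε hε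
    obtain ⟨n, hn⟩ := exists_nat_gt (M * C * ‖y - x₀‖ / ‖V hs h2 0‖ / δ)
    have hn0 : (0 : ℝ) < n := lt_of_le_of_lt (by positivity) hn
    have hnC : (n : ℂ) ≠ 0 := by
      intro h
      have : (n : ℝ) = 0 := by exact_mod_cast h
      exact hn0.ne' this
    set d : ℂ := (y - x₀) / n with hd
    have hdn : ‖d‖ = ‖y - x₀‖ / n := by
      rw [hd, norm_div, Complex.norm_natCast]
    have hdd : M * C * ‖d‖ / ‖V hs h2 0‖ = (M * C * ‖y - x₀‖ / ‖V hs h2 0‖) / n := by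
      rw [hdn]
      ring
    have hle : M * C * ‖d‖ / ‖V hs h2 0‖ ≤ δ := by
      rw [hdd, div_le_iff₀ hn0]
      rw [div_lt_iff₀ hδ0] at hn
      linarith
    obtain ⟨c', hc', hM', hx', hb⟩ :=
      many_steps hs h2 hC hlip h1 h3 hσ hε hδ (V_mem hs h2 y) hc le_rfl hx hle n
    have hy : x₀ + n * d = y := by
      rw [hd]
      field_simp
      ring
    rw [hy] at hx'
    rw [ex_V_zero hs h2 h1 hc' hx', sub_zero] at hb
    refine hb.trans (le_of_eq ?_)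
    rw [hdd, hK, hMdef]
    field_simp
    try ring
  have : ‖ex c (V hs h2 y)‖ ≤ 0 := by
    refine le_of_forall_pos_le_add fun η hη => ?_
    have h := main (η / (K + 1)) (by positivity)
    refine h.trans ?_
    rw [zero_add, div_mul_eq_mul_div, div_le_iff₀ (by positivity)]
    nlinarith
  exact norm_le_zero_iff.1 this

end

end Pool.Agent.Helper83.Lr
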